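import Pool.Agent.Helper95.RP.St

/-!
# Module SY of project RP (MP_e0fa86): the weights
-/

set_option autoImplicit false

namespace Pool.Agent.Helper8.RP

open Pool.Agent.Helper95.RP Finset
open scoped Classical

theorem hSY : SY := by
  intro hRO hRC hCA hCB hFA hFL N G V cl A L k h D hA hL he hX hinc hD1 hD2 hk
  obtain ⟨E, hE⟩ : ∃ E, E = Ed G V cl := ⟨_, rfl⟩
  rw [← hE] at hX hinc
  have hEm : ∀ p ∈ E, p.1 ∈ V ∧ p.2 ∈ V ∧ G.Adj p.1 p.2 ∧ cl (p.1, false) = cl (p.2, true) := by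
    intro p hp
    rw [hE] at hp
    unfold Ed at hp
    simp only [mem_filter, mem_product] at hp
    exact ⟨hp.1.1, hp.1.2, hp.2.1, hp.2.2⟩
  obtain ⟨s, hs⟩ : ∃ s : Fin N → Bool, ∀ u ∈ V, L ≤ inc E (u, s u) := by
    refine ⟨fun u => if L ≤ inc E (u, false) then false else true, fun u hu => ?_⟩
    by_cases h1 : L ≤ inc E (u, false)
    · simp only [h1, if_true]
    · simp only [h1, if_false]
      rcases hinc u hu with h2 | h2
      · exact absurd h2 h1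
      · exact h2
  have heR : (0 : ℝ) < (e2 G V : ℝ) := by exact_mod_cast he
  have hsumd : ∑ u ∈ V, (dg G V u : ℝ) = (e2 G V : ℝ) := by
    unfold e2
    push_cast
    rfl
  obtain ⟨x, hx⟩ : ∃ x : Fin N → ℝ, ∀ u, x u = (h : ℝ) * (dg G V u : ℝ) / (e2 G V : ℝ) :=
    ⟨_, fun _ => rfl⟩
  obtain ⟨x', hx'⟩ : ∃ x' : Fin N → ℝ, ∀ u, x' u =
      (4 * (k : ℝ) - (D : ℝ) * (h : ℝ) / (e2 G V : ℝ)) * (dg G V u : ℝ) :=
    ⟨_, fun _ => rfl⟩
  have hsx : ∑ u ∈ V, x u = (h : ℝ) := by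
    rw [sum_congr rfl (fun u _ => hx u), ← sum_div, ← mul_sum, hsumd]
    field_simp
  have hsx' : ∑ u ∈ V, x' u = 4 * (k : ℝ) * (e2 G V : ℝ) - (D : ℝ) * (h : ℝ) := by
    rw [sum_congr rfl (fun u _ => hx' u), ← mul_sum, hsumd]
    field_simp
  have hx0 : ∀ u, 0 ≤ x u := by
    intro u
    rw [hx]
    positivity
  have hD1R : (D : ℝ) * (h : ℝ) ≤ 4 * (k : ℝ) * (e2 G V : ℝ) := by exact_mod_cast hD1
  have hD2R : 4 * (k : ℝ) * (e2 G V : ℝ) < ((D : ℝ) + 1) * (h : ℝ) := by exact_mod_cast hD2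
  have hx'0 : ∀ u, 0 ≤ x' u := by
    intro u
    rw [hx']
    refine mul_nonneg ?_ (Nat.cast_nonneg _)
    rw [sub_nonneg, div_le_iff₀ heR]
    exact hD1R
  have hx'1 : ∀ u, x' u ≤ x u := by
    intro u
    rw [hx', hx]
    have h1 : 4 * (k : ℝ) - (D : ℝ) * (h : ℝ) / (e2 G V : ℝ) ≤ (h : ℝ) / (e2 G V : ℝ) := by
      rw [sub_le_iff_le_add, ← add_div, le_div_iff₀ heR]
      linarith
    calc (4 * (k : ℝ) - (D : ℝ) * (h : ℝ) / (e2 G V : ℝ)) * (dg G V u : ℝ)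
        ≤ (h : ℝ) / (e2 G V : ℝ) * (dg G V u : ℝ) :=
          mul_le_mul_of_nonneg_right h1 (Nat.cast_nonneg _)
      _ = (h : ℝ) * (dg G V u : ℝ) / (e2 G V : ℝ) := by ring
  have hrel : ∀ u, (D : ℝ) * x u + x' u = 4 * (k : ℝ) * (dg G V u : ℝ) := by
    intro u
    rw [hx, hx']
    field_simp
    ring
  obtain ⟨p, hp⟩ : ∃ p : Fin N → Lb N × Bool, ∀ u, p u = (cl (u, s u), s u) := ⟨_, fun _ => rfl⟩
  obtain ⟨m1, hm1, hm1s, hm1c⟩ := hRC hRO (Fin N) (Lb N × Bool) V p x (h : ℤ) (by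
    rw [hsx]
    simp)
  obtain ⟨w, hw, hws, hwc⟩ := hRC hRO (Fin N) (Lb N × Bool) V p x'
    (4 * (k : ℤ) * (e2 G V : ℤ) - (D : ℤ) * (h : ℤ)) (by
    rw [hsx']
    push_cast
    simp)
  obtain ⟨c0, hc0⟩ : ∃ c0 : Fin N → ℤ, ∀ u, c0 u =
      (D : ℤ) * m1 u - 4 * (k : ℤ) * (dg G V u : ℤ) + w u := ⟨_, fun _ => rfl⟩
  have hc0R : ∀ u, (c0 u : ℝ) = (D : ℝ) * ((m1 u : ℝ) - x u) + ((w u : ℝ) - x' u) := by
    intro u
    rw [hc0]
    push_cast
    have := hrel u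
    linarith
  have hD0 : (0 : ℝ) ≤ (D : ℝ) := Nat.cast_nonneg _
  have hb1 : ∀ u ∈ V, |c0 u| ≤ ((D + 1 : ℕ) : ℤ) := by
    intro u hu
    have h1 := (hm1 u hu).le
    have h2 := (hw u hu).le
    have h3 : |(c0 u : ℝ)| ≤ (D : ℝ) + 1 := by
      rw [hc0R]
      calc |(D : ℝ) * ((m1 u : ℝ) - x u) + ((w u : ℝ) - x' u)|
          ≤ |(D : ℝ) * ((m1 u : ℝ) - x u)| + |(w u : ℝ) - x' u| := abs_add_le _ _
        _ ≤ (D : ℝ) * 1 + 1 := by
            rw [abs_mul, abs_of_nonneg hD0]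
            exact add_le_add (mul_le_mul_of_nonneg_left h1 hD0) h2
        _ = (D : ℝ) + 1 := by ring
    exact_mod_cast h3
  have hb2 : ∀ (j : Lb N) (i : Bool),
      |∑ u ∈ V.filter (fun u => cl (u, i) = j ∧ s u = i), c0 u| ≤ ((D + 1 : ℕ) : ℤ) := by
    intro j i
    have hf : V.filter (fun u => cl (u, i) = j ∧ s u = i) = V.filter (fun u => p u = (j, i)) := by
      apply filter_congr
      intro u _
      rw [hp, Prod.mk.injEq]
      constructor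
      · rintro ⟨h1, h2⟩
        rw [h2]
        exact ⟨h1, rfl⟩
      · rintro ⟨h1, h2⟩
        rw [h2] at h1
        exact ⟨h1, h2⟩
    rw [hf]
    have h1' : |∑ u ∈ V.filter (fun u => p u = (j, i)), ((m1 u : ℝ) - x u)| < 1 := by
      convert hm1c (j, i)
    have h2' : |∑ u ∈ V.filter (fun u => p u = (j, i)), ((w u : ℝ) - x' u)| < 1 := by
      convert hwc (j, i)
    have h1 := h1'.le
    have h2 := h2'.le
    have h3 : ((∑ u ∈ V.filter (fun u => p u = (j, i)), c0 u : ℤ) : ℝ) =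
        (D : ℝ) * (∑ u ∈ V.filter (fun u => p u = (j, i)), ((m1 u : ℝ) - x u)) +
          ∑ u ∈ V.filter (fun u => p u = (j, i)), ((w u : ℝ) - x' u) := by
      push_cast
      rw [sum_congr rfl (fun u _ => hc0R u), sum_add_distrib, ← mul_sum]
    have h4 : |((∑ u ∈ V.filter (fun u => p u = (j, i)), c0 u : ℤ) : ℝ)| ≤ (D : ℝ) + 1 := by
      rw [h3]
      refine (abs_add_le _ _).trans ?_
      rw [abs_mul, abs_of_nonneg hD0]
      have := mul_le_mul_of_nonneg_left h1 hD0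
      linarith
    exact_mod_cast h4
  obtain ⟨c, hcV, hcc, hcs, hci⟩ := hCA hRO N V cl E s c0 (D + 1) L hL
    (fun p hp => ⟨(hEm p hp).1, (hEm p hp).2.1, (hEm p hp).2.2.2⟩) hs hb1 hb2
  have hcut := hCB N V cl E c A (D + 1) L k hA hL hk
    (fun p hp => ⟨(hEm p hp).1, (hEm p hp).2.1, (hEm p hp).2.2.2⟩) hX hcV hcs hci
  obtain ⟨g, ⟨hg0, hgk⟩, hgr, hgc⟩ := hFL hFA N E c k hcut
  have hg0' : ∀ u v, ¬ (u ∈ V ∧ v ∈ V ∧ G.Adj u v) → g (u, v) = 0 := by
    intro u v huv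
    apply hg0
    intro hm
    exact huv ⟨(hEm _ hm).1, (hEm _ hm).2.1, (hEm _ hm).2.2.1⟩
  have hm0 : ∀ u ∈ V, 0 ≤ m1 u := by
    intro u hu
    have h1 := hm1 u hu
    rw [abs_lt] at h1
    have h2 := hx0 u
    have h3 : (-1 : ℝ) < (m1 u : ℝ) := by linarith [h1.1]
    have h4 : (-1 : ℤ) < m1 u := by exact_mod_cast h3
    omega
  have hmz : ∀ u ∈ V, (((m1 u).toNat : ℕ) : ℤ) = m1 u := fun u hu => Int.toNat_of_nonneg (hm0 u hu)
  have hmr : ∀ u ∈ V, (((m1 u).toNat : ℕ) : ℝ) = (m1 u : ℝ) := by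
    intro u hu
    have := hmz u hu
    exact_mod_cast this
  refine ⟨fun u => (m1 u).toNat, fun u v => if u ∈ V ∧ v ∈ V ∧ G.Adj u v then
    (4 * (k : ℤ) + g (u, v) + g (v, u)).toNat else 0, ?_, ?_, ?_, ?_, ?_, ?_⟩
  · have h1 : ((∑ u ∈ V, (m1 u).toNat : ℕ) : ℤ) = (h : ℤ) := by
      push_cast
      rw [← hm1s]
      exact sum_congr rfl fun u hu => by
        have := hmz u hu
        rw [← this]
        simp
    exact_mod_cast h1
  · intro u hu
    have h1 := hm1 u hu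
    rw [hx] at h1
    simp only
    rw [hmr u hu]
    exact h1
  · intro u v
    simp only
    by_cases huv : u ∈ V ∧ v ∈ V ∧ G.Adj u v
    · have hvu : v ∈ V ∧ u ∈ V ∧ G.Adj v u := ⟨huv.2.1, huv.1, huv.2.2.symm⟩
      rw [if_pos huv, if_pos hvu]
      congr 1
      ring
    · have hvu : ¬ (v ∈ V ∧ u ∈ V ∧ G.Adj v u) := fun hh => huv ⟨hh.2.1, hh.1, hh.2.2.symm⟩
      rw [if_neg huv, if_neg hvu]
  · intro u v huv
    simp only [if_neg huv]
  · intro u v hu hv huv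
    simp only [if_pos (show u ∈ V ∧ v ∈ V ∧ G.Adj u v from ⟨hu, hv, huv⟩)]
    have h1 := abs_le.1 (hgk (u, v))
    have h2 := abs_le.1 (hgk (v, u))
    omega
  · intro u hu
    have hz : ((∑ v : Fin N, (if u ∈ V ∧ v ∈ V ∧ G.Adj u v then
        (4 * (k : ℤ) + g (u, v) + g (v, u)).toNat else 0) : ℕ) : ℤ) =
        4 * (k : ℤ) * (dg G V u : ℤ) + (c (u, false) + c (u, true)) := by
      rw [← hgr u, ← hgc u, ← sum_add_distrib]
      have h1 : (dg G V u : ℤ) = ∑ v : Fin N, (if u ∈ V ∧ v ∈ V ∧ G.Adj u v then (1 : ℤ) else 0) := by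
        unfold dg
        rw [card_filter]
        push_cast
        rw [← sum_subset (subset_univ V)]
        · apply sum_congr rfl
          intro v hv
          simp [hu, hv]
        · intro v _ hv
          simp [hv]
      rw [h1, mul_sum, ← sum_add_distrib]
      push_cast
      apply sum_congr rfl
      intro v _
      by_cases huv : u ∈ V ∧ v ∈ V ∧ G.Adj u v
      · rw [if_pos huv, if_pos huv]
        have e1 := abs_le.1 (hgk (u, v))
        have e2' := abs_le.1 (hgk (v, u))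
        have e3 : (0 : ℤ) ≤ 4 * (k : ℤ) + g (u, v) + g (v, u) := by omega
        rw [Int.toNat_of_nonneg e3]
        ring
      · have hvu : ¬ (v ∈ V ∧ u ∈ V ∧ G.Adj v u) := fun hh => huv ⟨hh.2.1, hh.1, hh.2.2.symm⟩
        rw [if_neg huv, if_neg huv, hg0' u v huv, hg0' v u hvu]
        ring
    have hzR : ((∑ v : Fin N, (if u ∈ V ∧ v ∈ V ∧ G.Adj u v then
        (4 * (k : ℤ) + g (u, v) + g (v, u)).toNat else 0) : ℕ) : ℝ) =
        4 * (k : ℝ) * (dg G V u : ℝ) + ((c (u, false) : ℝ) + (c (u, true) : ℝ)) := by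
      exact_mod_cast hz
    have hLR : (0 : ℝ) < (L : ℝ) := by exact_mod_cast hL
    have h1 : (L : ℝ) * |(c (u, false) : ℝ) + (c (u, true) : ℝ) - (c0 u : ℝ)| ≤
        4 * ((D : ℝ) + 1) + 2 * (L : ℝ) := by
      have := hcc u hu
      exact_mod_cast this
    have h2 : |(c (u, false) : ℝ) + (c (u, true) : ℝ) - (c0 u : ℝ)| ≤
        (4 * ((D : ℝ) + 1) + 2 * (L : ℝ)) / (L : ℝ) := by
      rw [le_div_iff₀ hLR]
      linarith
    have h3 := abs_le.1 h2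
    have h4 : (c0 u : ℝ) = (D : ℝ) * (m1 u : ℝ) - 4 * (k : ℝ) * (dg G V u : ℝ) + (w u : ℝ) := by
      rw [hc0]
      push_cast
      ring
    have h5 := abs_lt.1 (hw u hu)
    have h6 := hx'0 u
    have h7 := hx'1 u
    rw [hx u] at h7
    simp only
    rw [hzR, hmr u hu]
    constructor
    · linarith [h3.1, h5.1]
    · linarith [h3.2, h5.2]

end Pool.Agent.Helper8.RP
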