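import Pool.Agent.Helper95.RP.St

/-!
# Module WT of project RP (MP_e0fa86): the numbers
-/

set_option autoImplicit false

namespace Pool.Agent.Helper8.RP

open Pool.Agent.Helper95.RP Finset
open scoped Classical

theorem hWT : WT := by
  intro hTU hKR hXL hDB hDC hDE hWA hRO hRC hCA hCB hFA hFL hSY N G t q h hq ht hN0 hN hNq hh1 hh2
  obtain ⟨w, E, L, V, cl, a1, a2, a3, a4, a5, a6, hX, a7, a8, a9⟩ :=
    hWA hTU hKR hXL hDB hDC hDE N G t q hq ht hN0 hN hNq
  obtain ⟨e, he⟩ : ∃ e, e = e2 G V := ⟨_, rfl⟩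
  rw [← he] at a7 a8
  have hN200 : 200 ≤ N := le_trans (by omega) hN
  have hw100 : 100 ≤ w := by omega
  have hE1 : 9900 ≤ E := by omega
  have he1 : 1 ≤ e := by omega
  obtain ⟨k, hk⟩ : ∃ k, k = 30000 * q ^ 2 := ⟨_, rfl⟩
  have hh1' : 18432 * q * w ≤ h := le_trans (Nat.mul_le_mul_left _ a2) hh1
  have hqw : 1 ≤ q * w := Nat.mul_pos hq (by omega)
  have hhpos : 0 < h := by
    have : 18432 * q * w = 18432 * (q * w) := by ring
    omega
  obtain ⟨D', hD'⟩ : ∃ D', D' = 4 * k * e / h := ⟨_, rfl⟩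
  have d1 : D' * h ≤ 4 * k * e := by
    rw [hD']
    exact Nat.div_mul_le_self _ _
  have d2 : 4 * k * e < (D' + 1) * h := by
    rw [hD', mul_comm _ h]
    exact Nat.lt_mul_div_succ _ hhpos
  -- (a)
  have ea : D' * 18432 * (q * w) ≤ 960000 * (q * L) * (q * w) := by
    calc D' * 18432 * (q * w) = D' * (18432 * q * w) := by ring
      _ ≤ D' * h := Nat.mul_le_mul_left _ hh1'
      _ ≤ 4 * k * e := d1
      _ ≤ 4 * k * (8 * w * L) := Nat.mul_le_mul_left _ (le_trans a8 a5)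
      _ = 960000 * (q * L) * (q * w) := by
        rw [hk]
        ring
  have ea1 : D' * 18432 ≤ 960000 * (q * L) := Nat.le_of_mul_le_mul_right ea hqw
  have hqL : L ≤ q * L := Nat.le_mul_of_pos_left _ hq
  have ea2 : D' + 1 ≤ 53 * (q * L) := by omega
  -- (b)
  have eb : 3 * (8 * q) * (3 * (D' + 1) + L) ≤ k * L := by
    calc 3 * (8 * q) * (3 * (D' + 1) + L) ≤ 3 * (8 * q) * (160 * (q * L)) :=
          Nat.mul_le_mul_left _ (by omega)
      _ = 3840 * (q ^ 2 * L) := by ring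
      _ ≤ 30000 * (q ^ 2 * L) := Nat.mul_le_mul_right _ (by norm_num)
      _ = k * L := by
        rw [hk]
        ring
  obtain ⟨m, z, s1, s2, s3, s4, s5, s6⟩ := hSY hRO hRC hCA hCB hFA hFL N G V cl (8 * q) L k h D'
    (by omega) (by omega) (by omega) hX (fun u hu => (a9 u hu).1) (by rw [← he]; exact d1)
    (by rw [← he]; exact d2) eb
  rw [← he] at s2 s6
  have heR : (0 : ℝ) < (e : ℝ) := by exact_mod_cast he1
  have hLR : (0 : ℝ) < (L : ℝ) := by
    have : 0 < L := by omega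
    exact_mod_cast this
  have hqR : (1 : ℝ) ≤ (q : ℝ) := by exact_mod_cast hq
  -- (d)
  have ed0 : ∀ u ∈ V, (2304 * q : ℝ) ≤ (h : ℝ) * (dg G V u : ℝ) / (e : ℝ) := by
    intro u hu
    rw [le_div_iff₀ heR]
    have h1 : 2304 * q * e ≤ h * dg G V u := by
      calc 2304 * q * e ≤ 2304 * q * (8 * w * L) := Nat.mul_le_mul_left _ (le_trans a8 a5)
        _ = 18432 * q * w * L := by ring
        _ ≤ h * dg G V u := Nat.mul_le_mul hh1' (a9 u hu).2.1
    exact_mod_cast h1
  have ed : ∀ u ∈ V, 2304 * q ≤ m u := by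
    intro u hu
    have h1 := abs_lt.1 (s2 u hu)
    have h2 := ed0 u hu
    have h3 : (2304 * q : ℝ) < (m u : ℝ) + 1 := by linarith [h1.1]
    have h4 : 2304 * q < m u + 1 := by exact_mod_cast h3
    omega
  -- (e)
  have ee0 : ∀ u ∈ V, (h : ℝ) * (dg G V u : ℝ) / (e : ℝ) ≤ 58983 * (q : ℝ) ^ 2 := by
    intro u hu
    rw [div_le_iff₀ heR]
    have h0 : h ≤ 73728 * q * w := by
      calc h ≤ 36864 * q * N := hh2
        _ ≤ 36864 * q * (2 * w) := Nat.mul_le_mul_left _ a1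
        _ = 73728 * q * w := by ring
    have h1 : 5 * (h * dg G V u) ≤ 5 * (58983 * q ^ 2 * e) := by
      calc 5 * (h * dg G V u) ≤ 5 * (73728 * q * w * dg G V u) :=
            Nat.mul_le_mul_left _ (Nat.mul_le_mul_right _ h0)
        _ = 184320 * q * (2 * (w * dg G V u)) := by ring
        _ ≤ 184320 * q * (q * E) := Nat.mul_le_mul_left _ (a9 u hu).2.2
        _ = 36864 * q ^ 2 * (5 * E) := by ring
        _ ≤ 36864 * q ^ 2 * (8 * e) := Nat.mul_le_mul_left _ a7
        _ = 294912 * (q ^ 2 * e) := by ring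
        _ ≤ 294915 * (q ^ 2 * e) := Nat.mul_le_mul_right _ (by norm_num)
        _ = 5 * (58983 * q ^ 2 * e) := by ring
    have h2 : h * dg G V u ≤ 58983 * q ^ 2 * e := by omega
    exact_mod_cast h2
  have hq2 : 1 ≤ q ^ 2 := Nat.one_le_pow _ _ hq
  have ee : ∀ u ∈ V, m u ≤ 60000 * q ^ 2 := by
    intro u hu
    have h1 := abs_lt.1 (s2 u hu)
    have h2 := ee0 u hu
    have h3 : (m u : ℝ) < 58983 * (q : ℝ) ^ 2 + 1 := by linarith [h1.2]
    have h4 : m u < 58983 * q ^ 2 + 1 := by exact_mod_cast h3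
    omega
  -- (g)
  have eg : 1 ≤ D' := by
    rw [hD']
    refine Nat.div_pos ?_ hhpos
    have h1 : 30 * N ≤ e := by omega
    calc h ≤ 36864 * q * N := hh2
      _ ≤ 36864 * (q * N) * q := by
        rw [mul_assoc 36864 q N]
        exact Nat.le_mul_of_pos_right _ hq
      _ ≤ 3600000 * (q * N) * q := by
        apply Nat.mul_le_mul_right
        apply Nat.mul_le_mul_right
        norm_num
      _ = 4 * k * (30 * N) := by
        rw [hk]
        ring
      _ ≤ 4 * k * e := Nat.mul_le_mul_left _ h1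
  have hD : D' - 1 + 1 = D' := by omega
  have eDR : ((D' - 1 : ℕ) : ℝ) = (D' : ℝ) - 1 := by
    have : ((D' - 1 + 1 : ℕ) : ℝ) = (D' : ℝ) := by rw [hD]
    push_cast at this
    push_cast
    linarith
  -- (h)
  have eh : (4 * ((D' : ℝ) + 1) + 2 * (L : ℝ)) / (L : ℝ) ≤ 212 * (q : ℝ) + 2 := by
    rw [div_le_iff₀ hLR]
    have h1 : (D' : ℝ) + 1 ≤ 53 * ((q : ℝ) * (L : ℝ)) := by exact_mod_cast ea2
    nlinarith [h1]
  refine ⟨V, m, z, D' - 1, s1, ?_, s3, s4, ?_, ?_, ?_⟩
  · intro u hu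
    have := ed u hu
    exact ⟨by omega, ee u hu⟩
  · intro u hu v hv huv
    have h1 := s5 u v hu hv huv
    have h2 := ee u hu
    have h3 := ee v hv
    have h4 : (2304 * q) * (2304 * q) ≤ m u * m v := Nat.mul_le_mul (ed u hu) (ed v hv)
    have h5 : (2304 * q) * (2304 * q) = 5308416 * q ^ 2 := by ring
    refine ⟨by omega, by omega, ?_⟩
    omega
  · intro u hu
    have h1 := s6 u hu
    have h2 := ed u hu
    have h2R : (2304 * (q : ℝ)) ≤ (m u : ℝ) := by exact_mod_cast h2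
    have h3 := abs_lt.1 (s2 u hu)
    constructor
    · have h4 : ((D' : ℝ) - 1) * (m u : ℝ) ≤ ((∑ v : Fin N, z u v : ℕ) : ℝ) := by
        nlinarith [h1.1, eh, h2R, hqR]
      rw [← eDR] at h4
      exact_mod_cast h4
    · have h4 : ((∑ v : Fin N, z u v : ℕ) : ℝ) ≤ ((D' : ℝ) - 1 + 3) * (m u : ℝ) := by
        nlinarith [h1.2, eh, h2R, hqR, h3.1]
      rw [← eDR] at h4
      exact_mod_cast h4
  · have e1 : D' * 18432 * (q * w) ≤ 120000 * (q * N) * (q * w) := by
      calc D' * 18432 * (q * w) = D' * (18432 * q * w) := by ring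
        _ ≤ D' * h := Nat.mul_le_mul_left _ hh1'
        _ ≤ 4 * k * e := d1
        _ ≤ 4 * k * (w * N) := Nat.mul_le_mul_left _ (le_trans a8 (le_trans a4
            (Nat.mul_le_mul_left _ a2)))
        _ = 120000 * (q * N) * (q * w) := by
          rw [hk]
          ring
    have e2 : D' * 18432 ≤ 120000 * (q * N) := Nat.le_of_mul_le_mul_right e1 hqw
    have e3 : N ≤ q * N := Nat.le_mul_of_pos_left _ hq
    have e4 : 18432 * (q * N) ≤ h := by
      have : 18432 * (q * N) = 18432 * q * N := by ring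
      omega
    omega

end Pool.Agent.Helper8.RP
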